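import Pool.Agent.H906.EhrM.Meas

/-!
# Several bodies: general lattices
-/

set_option autoImplicit false

open scoped Pointwise Topology
open Set MeasureTheory Filter Module

namespace Pool.Agent.H906.EhrM

open Pool.Agent.H912R3.Ehr Pool.Agent.H906.EhrW

variable {d : ℕ}

/-- linear change of variables -/
theorem int_comp (T : (Fin d → ℝ) ≃L[ℝ] (Fin d → ℝ)) (K : Set (Fin d → ℝ)) (_hK : MeasurableSet K)
    (g : (Fin d → ℝ) → ℝ) :
    ∫ x in T ⁻¹' K, g (T x) =
      |(LinearMap.det (T : (Fin d → ℝ) →ₗ[ℝ] (Fin d → ℝ)))⁻¹| * ∫ x in K, g x := by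
  have hdet : LinearMap.det (T : (Fin d → ℝ) →ₗ[ℝ] (Fin d → ℝ)) ≠ 0 := by
    have := (T.toLinearEquiv).isUnit_det'
    exact this.ne_zero
  have hmap := Measure.map_linearMap_addHaar_eq_smul_addHaar
    (volume : Measure (Fin d → ℝ)) hdet
  have hemb : MeasurableEmbedding (T : (Fin d → ℝ) → (Fin d → ℝ)) :=
    T.toHomeomorph.measurableEmbedding
  have h1 := hemb.setIntegral_map (μ := volume) g K
  have h2 : Measure.map (T : (Fin d → ℝ) → (Fin d → ℝ)) volume =
      ENNReal.ofReal |(LinearMap.det (T : (Fin d → ℝ) →ₗ[ℝ] (Fin d → ℝ)))⁻¹| • volume := hmap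
  rw [h2, Measure.restrict_smul, integral_smul_measure, ENNReal.toReal_ofReal (abs_nonneg _)] at h1
  rw [← h1, smul_eq_mul]

theorem intOn_comp (T : (Fin d → ℝ) ≃L[ℝ] (Fin d → ℝ)) (K : Set (Fin d → ℝ)) (_hK : MeasurableSet K)
    (g : (Fin d → ℝ) → ℝ) (hg : IntegrableOn g K) :
    IntegrableOn (fun x => g (T x)) (T ⁻¹' K) := by
  have hdet : LinearMap.det (T : (Fin d → ℝ) →ₗ[ℝ] (Fin d → ℝ)) ≠ 0 := by
    have := (T.toLinearEquiv).isUnit_det'
    exact this.ne_zero
  have hmap := Measure.map_linearMap_addHaar_eq_smul_addHaar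
    (volume : Measure (Fin d → ℝ)) hdet
  have hemb : MeasurableEmbedding (T : (Fin d → ℝ) → (Fin d → ℝ)) :=
    T.toHomeomorph.measurableEmbedding
  have h2 : Measure.map (T : (Fin d → ℝ) → (Fin d → ℝ)) volume =
      ENNReal.ofReal |(LinearMap.det (T : (Fin d → ℝ) →ₗ[ℝ] (Fin d → ℝ)))⁻¹| • volume := hmap
  have h1 := hemb.integrableOn_map_iff (μ := volume) (f := g) (s := K)
  have h3 : IntegrableOn g K (Measure.map (T : (Fin d → ℝ) → (Fin d → ℝ)) volume) := by
    rw [h2, IntegrableOn, Measure.restrict_smul]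
    exact Integrable.smul_measure hg ENNReal.ofReal_ne_top
  exact h1.1 h3

variable {ι : Type} [Fintype ι]

/-- the bound for several bodies and a general lattice -/
theorem lattice_bound [Nonempty ι] (hd : 1 ≤ d) (T : (Fin d → ℝ) ≃L[ℝ] (Fin d → ℝ))
    {K : ι → Set (Fin d → ℝ)}
    (hK : ∀ i, IsCompact (K i)) (hKc : ∀ i, Convex ℝ (K i))
    (hL : ∀ z : Fin d → ℤ, T (fun i => (z i : ℝ)) ∈ interior (msum K) → z = 0)
    {f : ι → (Fin d → ℝ) → ℝ} (hf : ∀ i, IntegrableOn (f i) (K i))
    (hf01 : ∀ i, ∀ x ∈ K i, 0 ≤ f i x ∧ f i x ≤ 1)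
    (hz : ∀ i j, ∫ x in K i, f i x * x j = 0)
    (hV0 : ∀ i, 0 < ∫ x in K i, f i x) :
    ∑ i, (∫ x in K i, f i x) ^ ((d : ℝ)⁻¹) ≤
      (d + 1) * (|LinearMap.det (T : (Fin d → ℝ) →ₗ[ℝ] (Fin d → ℝ))| / d.factorial) ^ ((d : ℝ)⁻¹) := by
  classical
  set D : ℝ := |LinearMap.det (T : (Fin d → ℝ) →ₗ[ℝ] (Fin d → ℝ))| with hD
  have hD0 : 0 < D := by
    have := (T.toLinearEquiv).isUnit_det'
    exact abs_pos.2 this.ne_zero
  have hm : ∀ i, MeasurableSet (K i) := fun i => (hK i).measurableSet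
  have hmsum : msum (fun i => T ⁻¹' K i) = T ⁻¹' (msum K) := by
    ext x
    constructor
    · rintro ⟨y, hy, rfl⟩
      exact ⟨fun i => T (y i), hy, by rw [map_sum]⟩
    · rintro ⟨y, hy, hx⟩
      refine ⟨fun i => T.symm (y i), fun i => ?_, ?_⟩
      · show T (T.symm (y i)) ∈ K i
        rw [T.apply_symm_apply]; exact hy i
      · rw [← map_sum, ← hx, T.symm_apply_apply]
  have h1 := weight_bound_m (K := fun i => T ⁻¹' K i) (f := fun i x => f i (T x)) hd
    (fun i => by
      have : T ⁻¹' K i = T.symm '' K i := by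
        rw [ContinuousLinearEquiv.image_symm_eq_preimage]
      show IsCompact (T ⁻¹' K i)
      rw [this]
      exact (hK i).image T.symm.continuous)
    (fun i => (hKc i).is_linear_preimage ⟨fun x y => map_add T x y, fun c x => map_smul T c x⟩)
    (fun z hz' => by
      rw [hmsum] at hz'
      have h2 : interior (T ⁻¹' (msum K)) = T ⁻¹' (interior (msum K)) :=
        (T.toHomeomorph.preimage_interior (msum K)).symm
      rw [h2] at hz'
      exact hL z hz')
    (fun i => intOn_comp T (K i) (hm i) (f i) (hf i))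
    (fun i x hx => hf01 i (T x) hx)
    (fun i j => by
      have h2 : (fun x : Fin d → ℝ => f i (T x) * x j) =
          fun x => (fun w => f i w * (T.symm w) j) (T x) := by
        funext x
        show _ = f i (T x) * (T.symm (T x)) j
        rw [T.symm_apply_apply]
      show ∫ x in T ⁻¹' K i, (fun x : Fin d → ℝ => f i (T x) * x j) x = 0
      rw [h2, int_comp T (K i) (hm i) (fun w => f i w * (T.symm w) j)]
      have h3 : ∀ w : Fin d → ℝ, (T.symm w) j = ∑ l, (T.symm (fun m => if l = m then 1 else 0)) j * w l := by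
        intro w
        have := LinearMap.pi_apply_eq_sum_univ
          ((LinearMap.proj j).comp (T.symm : (Fin d → ℝ) →ₗ[ℝ] (Fin d → ℝ))) w
        have h4 : ((LinearMap.proj j).comp (T.symm : (Fin d → ℝ) →ₗ[ℝ] (Fin d → ℝ))) w =
            (T.symm w) j := rfl
        rw [h4] at this
        rw [this]
        exact Finset.sum_congr rfl fun l _ => by
          rw [smul_eq_mul, mul_comm]; rfl
      have h5 : ∫ w in K i, f i w * (T.symm w) j = 0 := by
        have h6 : ∀ w, f i w * (T.symm w) j =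
            ∑ l, (T.symm (fun m => if l = m then 1 else 0)) j * (f i w * w l) := by
          intro w
          rw [h3 w, Finset.mul_sum]
          exact Finset.sum_congr rfl fun l _ => by ring
        simp_rw [h6]
        rw [integral_finsetSum _ fun l _ => (mul_coord_integrable (hK i) (hf i) l).const_mul _]
        refine Finset.sum_eq_zero fun l _ => ?_
        rw [integral_const_mul, hz i l, mul_zero]
      show |_| * ∫ w in K i, f i w * (T.symm w) j = 0
      rw [h5, mul_zero])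
    (fun i => by
      rw [int_comp T (K i) (hm i), abs_inv]
      exact mul_pos (inv_pos.2 hD0) (hV0 i))
  have hfac : (0 : ℝ) < d.factorial := by positivity
  have h2 : ∀ i, ((d.factorial : ℝ) * ∫ x in T ⁻¹' K i, f i (T x)) ^ ((d : ℝ)⁻¹) =
      (∫ x in K i, f i x) ^ ((d : ℝ)⁻¹) * ((D / d.factorial) ^ ((d : ℝ)⁻¹))⁻¹ := by
    intro i
    rw [int_comp T (K i) (hm i), abs_inv, ← Real.inv_rpow (by positivity),
      ← Real.mul_rpow (hV0 i).le (by positivity)]
    congr 1
    rw [inv_div]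
    rw [← hD]
    field_simp
  rw [Finset.sum_congr rfl fun i _ => h2 i, ← Finset.sum_mul] at h1
  have h3 : 0 < (D / d.factorial) ^ ((d : ℝ)⁻¹) := Real.rpow_pos_of_pos (by positivity) _
  rwa [← div_eq_mul_inv, div_le_iff₀ h3] at h1

end Pool.Agent.H906.EhrM
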