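import Pool.Agent.H906.EhrM.Key

/-!
# Several bodies: the limits
-/

set_option autoImplicit false

open scoped Pointwise Topology
open Set MeasureTheory Filter Module

namespace Pool.Agent.H906.EhrM

open Pool.Agent.H912R3.Ehr Pool.Agent.H906.EhrW

variable {d : ℕ} {ι : Type} [Fintype ι]

/-- first limit `q → ∞` -/
theorem lim1_m [Nonempty ι] (hd : 1 ≤ d) {K : ι → Set (Fin d → ℝ)} (hKc : ∀ i, Convex ℝ (K i))
    (hL : ∀ z : Fin d → ℤ, (fun i => (z i : ℝ)) ∈ interior (msum K) → z = 0)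
    {k B : ℕ} (hk : 1 ≤ k) {ε δ : ℝ} (hε : 0 < ε) (hε1 : ε < 1)
    (hδ : 0 < δ) (hball : ∀ i, Metric.ball (0 : Fin d → ℝ) δ ⊆ K i)
    (A : ι → Finset (Fin d →₀ ℕ)) (hAK : ∀ i, ∀ m ∈ A i, pt k B m ∈ K i)
    (r : ι → (Fin d →₀ ℕ) → ℕ) (R : ℕ) (hr : ∀ i, ∀ l ∈ A i, r i l ≤ R)
    (hA0 : ∀ i, 0 < ∑ m ∈ A i, r i m)
    (hc : ∀ i, ‖((∑ m ∈ A i, r i m : ℕ) : ℝ)⁻¹ • ∑ m ∈ A i, (r i m : ℝ) • pt k B m‖ < ε * δ)
    (J : ι → ℕ) :
    (1 - ε) * ∑ i, ((J i : ℝ) / k -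
      R * ((J i + d).choose (d + 1) : ℕ) / (k * (∑ m ∈ A i, r i m : ℕ))) ≤ d := by
  set N : ι → ℝ := fun i => ((∑ m ∈ A i, r i m : ℕ) : ℝ) with hN
  set X : ι → ℝ := fun i => (J i : ℝ) * N i - R * ((J i + d).choose (d + 1) : ℕ) with hX
  have hk' : (0 : ℝ) < k := by positivity
  have hN' : ∀ i, (0 : ℝ) < N i := fun i => by
    show (0 : ℝ) < ((∑ m ∈ A i, r i m : ℕ) : ℝ)
    exact_mod_cast hA0 i
  have e0 : ∀ i, (J i : ℝ) / k - R * ((J i + d).choose (d + 1) : ℕ) /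
      (k * (∑ m ∈ A i, r i m : ℕ)) = X i / (k * N i) := by
    intro i
    have h1 := hN' i
    show (J i : ℝ) / k - R * ((J i + d).choose (d + 1) : ℕ) / (k * N i) =
      ((J i : ℝ) * N i - R * ((J i + d).choose (d + 1) : ℕ)) / (k * N i)
    field_simp
  rw [Finset.sum_congr rfl fun i _ => e0 i]
  by_contra hcon
  push Not at hcon
  set κ : ℝ := (1 - ε) * ∑ i, X i / (k * N i) - d with hκ
  have hκ0 : 0 < κ := by rw [hκ]; linarith
  set Z : ℝ := ∑ i, |X i| with hZ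
  have hall : ∀ e : ℕ, (2 : ℝ) ^ e * κ ≤ Z := by
    intro e
    set a : ι → ℕ := fun i => ⌊(1 - ε) * (2 : ℝ) ^ e / (k * N i)⌋₊ with ha
    have hnn : ∀ i, 0 ≤ (1 - ε) * (2 : ℝ) ^ e / (k * N i) := by
      intro i
      have : 0 ≤ 1 - ε := by linarith
      have := hN' i
      positivity
    have ha1 : ∀ i, (a i : ℝ) ≤ (1 - ε) * (2 : ℝ) ^ e / (k * N i) := fun i => Nat.floor_le (hnn i)
    have ha2 : ∀ i, (1 - ε) * (2 : ℝ) ^ e / (k * N i) - 1 < a i := by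
      intro i
      have := Nat.lt_floor_add_one ((1 - ε) * (2 : ℝ) ^ e / (k * N i))
      linarith
    have h1 := disc_m hd hKc hL hk hε hδ hball A hAK r R hr hA0 hc e (2 ^ e) a J rfl (by
      intro i
      have h2 := ha1 i
      rw [le_div_iff₀ (mul_pos hk' (hN' i))] at h2
      have h7 : (a i : ℝ) * ((∑ m ∈ A i, r i m : ℕ) * k) = a i * (k * N i) := by
        rw [mul_comm (k : ℝ)]
      rw [h7]
      push_cast
      exact h2)
    have h2 : ∑ i, (a i : ℝ) * X i ≤ d * (2 : ℝ) ^ e := by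
      have h3 : ((∑ i, a i * (J i * ∑ m ∈ A i, r i m) : ℕ) : ℝ) ≤
          ((∑ i, a i * (R * (J i + d).choose (d + 1)) + d * (2 ^ e - 1) : ℕ) : ℝ) := by
        exact_mod_cast h1
      have h4 : ((d * (2 ^ e - 1) : ℕ) : ℝ) ≤ d * (2 : ℝ) ^ e := by
        have : d * (2 ^ e - 1) ≤ d * 2 ^ e := Nat.mul_le_mul_left _ (Nat.sub_le _ _)
        exact_mod_cast this
      rw [Nat.cast_add] at h3
      have h5 : ((∑ i, a i * (J i * ∑ m ∈ A i, r i m) : ℕ) : ℝ) = ∑ i, (a i : ℝ) * (J i * N i) := by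
        rw [Nat.cast_sum]
        refine Finset.sum_congr rfl fun i _ => ?_
        rw [Nat.cast_mul, Nat.cast_mul]
      have h6 : ((∑ i, a i * (R * (J i + d).choose (d + 1)) : ℕ) : ℝ) =
          ∑ i, (a i : ℝ) * (R * ((J i + d).choose (d + 1) : ℕ)) := by
        rw [Nat.cast_sum]
        refine Finset.sum_congr rfl fun i _ => ?_
        rw [Nat.cast_mul, Nat.cast_mul]
      rw [h5, h6] at h3
      have h7 : ∑ i, (a i : ℝ) * X i = ∑ i, (a i : ℝ) * (J i * N i) -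
          ∑ i, (a i : ℝ) * (R * ((J i + d).choose (d + 1) : ℕ)) := by
        rw [← Finset.sum_sub_distrib]
        exact Finset.sum_congr rfl fun i _ => mul_sub _ _ _
      rw [h7]
      linarith
    have h5 : ∀ i, (1 - ε) * (2 : ℝ) ^ e / (k * N i) * X i - |X i| ≤ a i * X i := by
      intro i
      rcases le_total 0 (X i) with h | h
      · rw [abs_of_nonneg h]
        have := mul_le_mul_of_nonneg_right (ha2 i).le h
        linarith
      · rw [abs_of_nonpos h]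
        have := mul_le_mul_of_nonpos_right (ha1 i) h
        linarith
    have h6 := Finset.sum_le_sum fun i (_ : i ∈ (Finset.univ : Finset ι)) => h5 i
    rw [Finset.sum_sub_distrib] at h6
    have h7 : ∑ i, (1 - ε) * (2 : ℝ) ^ e / (k * N i) * X i =
        (2 : ℝ) ^ e * ((1 - ε) * ∑ i, X i / (k * N i)) := by
      rw [Finset.mul_sum, Finset.mul_sum]
      refine Finset.sum_congr rfl fun i _ => ?_
      ring
    rw [h7] at h6
    rw [hκ, hZ]
    linarith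
  obtain ⟨e, he⟩ := pow_unbounded_of_one_lt (Z / κ) (one_lt_two : (1 : ℝ) < 2)
  rw [div_lt_iff₀ hκ0] at he
  exact absurd (hall e) (not_le.2 he)

/-- the bound for continuous weights -/
theorem cont_bound_m [Nonempty ι] (hd : 1 ≤ d) {K : ι → Set (Fin d → ℝ)}
    (hK : ∀ i, IsCompact (K i)) (hKc : ∀ i, Convex ℝ (K i))
    (hL : ∀ z : Fin d → ℤ, (fun i => (z i : ℝ)) ∈ interior (msum K) → z = 0)
    {ε δ : ℝ} (hε : 0 < ε) (hε1 : ε < 1) (hδ : 0 < δ)
    (hball : ∀ i, Metric.ball (0 : Fin d → ℝ) δ ⊆ K i) (g : ι → (Fin d → ℝ) → ℝ)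
    (hg : ∀ i, Continuous (g i))
    (hg0 : ∀ i x, 0 ≤ g i x) (hg1 : ∀ i x, g i x ≤ 1) (V : ι → ℝ)
    (hV : ∀ i, V i = ∫ x in K i, g i x) (hV0 : ∀ i, 0 < V i)
    (hc : ∀ i, ‖(fun j => (V i)⁻¹ * ∫ x in K i, g i x * x j : Fin d → ℝ)‖ < ε * δ)
    (y : ι → ℝ) (hy : ∀ i, 0 ≤ y i) :
    (1 - ε) * ∑ i, (y i - y i ^ (d + 1) / ((d + 1).factorial * V i)) ≤ d := by
  classical
  -- a bound for the coordinates
  have hBi : ∀ i, ∃ B : ℕ, ∀ x ∈ K i, ∀ j, |x j| ≤ B := by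
    intro i
    obtain ⟨R, hR⟩ := (hK i).isBounded.subset_closedBall (0 : Fin d → ℝ)
    obtain ⟨B, hB0⟩ := exists_nat_ge R
    refine ⟨B, fun x hx j => ?_⟩
    have h1 := hR hx
    rw [mem_closedBall_zero_iff] at h1
    exact ((norm_le_pi_norm x j).trans h1).trans hB0
  choose B0 hB0 using hBi
  set B : ℕ := ∑ i, B0 i with hBdef
  have hB : ∀ i, ∀ x ∈ K i, ∀ j, |x j| ≤ B := by
    intro i x hx j
    refine (hB0 i x hx j).trans ?_
    have : B0 i ≤ B := Finset.single_le_sum (f := B0) (fun _ _ => Nat.zero_le _) (Finset.mem_univ i)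
    exact_mod_cast this
  let A : ι → ℕ → Finset (Fin d →₀ ℕ) := fun i k => if hk : 1 ≤ k then AA (K i) k B hk (hB i) else ∅
  have hA : ∀ i, ∀ k (hk : 1 ≤ k), A i k = AA (K i) k B hk (hB i) := fun i k hk => dif_pos hk
  let r : ι → ℕ → (Fin d →₀ ℕ) → ℕ := fun i k m => ⌊(k : ℝ) * g i (pt k B m)⌋₊
  let N : ι → ℕ → ℕ := fun i k => ∑ m ∈ A i k, r i k m
  have hr : ∀ i k m, r i k m ≤ k := by
    intro i k m
    apply Nat.floor_le_of_le
    calc (k : ℝ) * g i (pt k B m) ≤ k * 1 := mul_le_mul_of_nonneg_left (hg1 i _) (Nat.cast_nonneg k)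
      _ = k := mul_one _
  have hN : ∀ i, Tendsto (fun k : ℕ => (N i k : ℝ) / (k : ℝ) ^ (d + 1)) atTop (𝓝 (V i)) := by
    intro i
    have h1 := lims_r (hK i) (hKc i) (hB i) (A i) (hA i) (g i) (hg i) (hg0 i) (fun _ => 1)
      continuous_const 1 (fun _ _ => by simp)
    simp only [mul_one] at h1
    rw [hV]
    refine h1.congr fun k => ?_
    show _ = ((∑ m ∈ A i k, r i k m : ℕ) : ℝ) / _
    push_cast
    rfl
  have hsum : ∀ i j, Tendsto (fun k : ℕ => (∑ m ∈ A i k, (r i k m : ℝ) * pt k B m j) /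
      (k : ℝ) ^ (d + 1)) atTop (𝓝 (∫ x in K i, g i x * x j)) := by
    intro i j
    exact lims_r (hK i) (hKc i) (hB i) (A i) (hA i) (g i) (hg i) (hg0 i) (fun x => x j)
      (continuous_apply j) B (fun x hx => hB i x hx j)
  -- the barycentres converge
  have hbar : ∀ i, Tendsto (fun k : ℕ => ((N i k : ℝ)⁻¹) • ∑ m ∈ A i k, (r i k m : ℝ) • pt k B m)
      atTop (𝓝 (fun j => (V i)⁻¹ * ∫ x in K i, g i x * x j : Fin d → ℝ)) := by
    intro i
    rw [tendsto_pi_nhds]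
    intro j
    have h1 := (hsum i j).div (hN i) (hV0 i).ne'
    have h2 : (∫ x in K i, g i x * x j) / V i = (V i)⁻¹ * ∫ x in K i, g i x * x j := by
      rw [div_eq_inv_mul]
    rw [h2] at h1
    refine h1.congr' ?_
    filter_upwards [eventually_ge_atTop 1] with k hk
    have hk' : (0 : ℝ) < (k : ℝ) ^ (d + 1) := by positivity
    rw [Pi.smul_apply, Finset.sum_apply, smul_eq_mul, Pi.div_apply]
    simp only [Pi.smul_apply, smul_eq_mul]
    rcases Nat.eq_zero_or_pos (N i k) with h | h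
    · have : (N i k : ℝ) = 0 := by rw [h]; simp
      rw [this]
      simp
    · have : (0 : ℝ) < N i k := by exact_mod_cast h
      field_simp
  -- the rounded `y i * k`
  have hJ : ∀ i, Tendsto (fun k : ℕ => ((⌊y i * k⌋₊ : ℕ) : ℝ) / k) atTop (𝓝 (y i)) := fun i =>
    tendsto_nat_floor_mul_div_atTop (hy i) |>.comp tendsto_natCast_atTop_atTop
  have hev : ∀ᶠ k : ℕ in atTop,
      (1 - ε) * ∑ i, (((⌊y i * k⌋₊ : ℕ) : ℝ) / k -
        (y i + (d : ℝ) / k) ^ (d + 1) / (d + 1).factorial / ((N i k : ℝ) / (k : ℝ) ^ (d + 1))) ≤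
        d := by
    have h1 : ∀ᶠ k : ℕ in atTop, ∀ i,
        ‖((N i k : ℝ)⁻¹) • ∑ m ∈ A i k, (r i k m : ℝ) • pt k B m‖ < ε * δ :=
      eventually_all.2 fun i => (hbar i).norm.eventually (gt_mem_nhds (hc i))
    have h2 : ∀ᶠ k : ℕ in atTop, ∀ i, 0 < (N i k : ℝ) / (k : ℝ) ^ (d + 1) :=
      eventually_all.2 fun i => (hN i).eventually (lt_mem_nhds (hV0 i))
    filter_upwards [h1, h2, eventually_ge_atTop 1] with k hc hpos hk
    have hk' : (0 : ℝ) < k := by positivity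
    have hkd : (0 : ℝ) < (k : ℝ) ^ (d + 1) := by positivity
    have hA0 : ∀ i, 0 < N i k := by
      intro i
      rcases Nat.eq_zero_or_pos (N i k) with h | h
      · have := hpos i
        rw [h] at this; simp at this
      · exact h
    have hAK : ∀ i, ∀ m ∈ A i k, pt k B m ∈ K i := by
      intro i m hm
      rw [hA i k hk, mem_AA] at hm
      exact hm
    have h3 := lim1_m hd hKc hL hk hε hε1 hδ hball (fun i => A i k) hAK (fun i => r i k) k
      (fun i l _ => hr i k l) hA0 hc (fun i => ⌊y i * k⌋₊)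
    refine le_trans (mul_le_mul_of_nonneg_left (Finset.sum_le_sum fun i _ => ?_) (by linarith)) h3
    refine sub_le_sub_left ?_ _
    have hNk : (0 : ℝ) < N i k := by exact_mod_cast hA0 i
    have h4 : (((⌊y i * k⌋₊ + d).choose (d + 1) : ℕ) : ℝ) ≤
        (((⌊y i * k⌋₊ + d : ℕ) : ℝ)) ^ (d + 1) / (d + 1).factorial :=
      Nat.choose_le_pow_div (d + 1) (⌊y i * k⌋₊ + d)
    have h5 : (((⌊y i * k⌋₊ + d : ℕ) : ℝ)) ≤ (y i + (d : ℝ) / k) * k := by
      push_cast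
      rw [add_mul, div_mul_cancel₀ _ hk'.ne']
      have := Nat.floor_le (mul_nonneg (hy i) hk'.le)
      linarith
    have h6 : (((⌊y i * k⌋₊ + d : ℕ) : ℝ)) ^ (d + 1) ≤
        (y i + (d : ℝ) / k) ^ (d + 1) * (k : ℝ) ^ (d + 1) := by
      rw [← mul_pow]
      exact pow_le_pow_left₀ (Nat.cast_nonneg _) h5 _
    have hf : (0 : ℝ) < (d + 1).factorial := by positivity
    have h7 : (((⌊y i * k⌋₊ + d).choose (d + 1) : ℕ) : ℝ) ≤
        (y i + (d : ℝ) / k) ^ (d + 1) * (k : ℝ) ^ (d + 1) / (d + 1).factorial :=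
      h4.trans (div_le_div_of_nonneg_right h6 hf.le)
    have e1 : (y i + (d : ℝ) / k) ^ (d + 1) / (d + 1).factorial /
        ((N i k : ℝ) / (k : ℝ) ^ (d + 1)) =
        (y i + (d : ℝ) / k) ^ (d + 1) * (k : ℝ) ^ (d + 1) / (d + 1).factorial / N i k := by
      field_simp
    have e2 : (k : ℝ) * ((⌊y i * k⌋₊ + d).choose (d + 1) : ℕ) /
        (k * (∑ m ∈ A i k, r i k m : ℕ)) = ((⌊y i * k⌋₊ + d).choose (d + 1) : ℕ) / (N i k : ℝ) :=
      mul_div_mul_left _ _ hk'.ne'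
    rw [e1, e2]
    exact div_le_div_of_nonneg_right h7 hNk.le
  have hl1 : Tendsto (fun k : ℕ => (1 - ε) * ∑ i, (((⌊y i * k⌋₊ : ℕ) : ℝ) / k -
        (y i + (d : ℝ) / k) ^ (d + 1) / (d + 1).factorial / ((N i k : ℝ) / (k : ℝ) ^ (d + 1))))
      atTop (𝓝 ((1 - ε) * ∑ i, (y i - (y i + 0) ^ (d + 1) / (d + 1).factorial / V i))) := by
    refine Tendsto.const_mul _ (tendsto_finset_sum _ fun i _ => ?_)
    refine (hJ i).sub (Tendsto.div (Tendsto.div_const ?_ _) (hN i) (hV0 i).ne')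
    exact ((tendsto_const_nhds).add (tendsto_const_div_atTop_nhds_zero_nat (d : ℝ))).pow _
  have h8 := le_of_tendsto hl1 hev
  simp only [add_zero, div_div] at h8
  exact h8

end Pool.Agent.H906.EhrM
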